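import Pool.Agent.V11307.QThird
import Pool.Agent.V11307.QClosed5

set_option autoImplicit false

/-!
# `∑_{k<mn} (-1)^k [4k+1] (q;q²)_k⁴ (q²;q⁴)_k q^k / ((q²;q²)_k⁴ (q⁴;q⁴)_k)` modulo `Φ_n(q)³`
-/

namespace Pool.Agent.Results.MP_40e425_nt.Fifth

open Polynomial Finset

noncomputable section

/-- The indeterminate `q` of the field `ℚ(q)`. -/
def q : RatFunc ℚ := RatFunc.X

/-- The `q`-integer `[N] = (1-q^N)/(1-q)`. -/
def qint (N : ℕ) : RatFunc ℚ := (1 - q ^ N) / (1 - q)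

/-- `a_k(q) = ∏_{j=1}^k (1-q^{2j-1})⁴(1-q^{4j-2}) / ((1-q^{2j})⁴(1-q^{4j}))`
(the index is shifted: `j+1` runs over `1..k`). -/
def a (k : ℕ) : RatFunc ℚ :=
  ∏ j ∈ range k, ((1 - q ^ (2 * j + 1)) ^ 4 * (1 - q ^ (4 * j + 2))) /
    ((1 - q ^ (2 * j + 2)) ^ 4 * (1 - q ^ (4 * j + 4)))

/-- `c_k = (binom(2k,k)/4^k)⁵`. -/
def c (k : ℕ) : ℚ := (1 / 4 ^ k * (Nat.choose (2 * k) k : ℚ)) ^ 5

/-- `S_{m,n}(q) = ∑_{k<mn} (-1)^k [4k+1] a_k(q) q^k`. -/
def S (m n : ℕ) : RatFunc ℚ := ∑ k ∈ range (m * n), (-1) ^ k * qint (4 * k + 1) * a k * q ^ k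

/-- `λ_n(q) = [n] ∏_{j=1}^{(n-1)/4} ((1-q^{4j-2})/(1-q^{4j}))²` (index shifted by one). -/
def lam (n : ℕ) : RatFunc ℚ :=
  qint n * ∏ j ∈ range ((n - 1) / 4), ((1 - q ^ (4 * j + 2)) / (1 - q ^ (4 * j + 4))) ^ 2

/-- `T_{m,n}(q) = λ_n(q) ∑_{k<m} (-1)^k (4k+1) c_k`. -/
def T (m n : ℕ) : RatFunc ℚ :=
  lam n * RatFunc.C (∑ k ∈ range m, (-1) ^ k * (4 * (k : ℚ) + 1) * c k)

/-- `A ≡ B (mod Φ_n(q)³)`: `A - B = Φ_n³ C/D` with `D` coprime to `Φ_n`. -/
def CongCube (n : ℕ) (A B : RatFunc ℚ) : Prop :=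
  ∃ C D : ℚ[X], IsCoprime D (cyclotomic n ℚ) ∧
    A - B = algebraMap ℚ[X] (RatFunc ℚ) (cyclotomic n ℚ ^ 3 * C) / algebraMap ℚ[X] (RatFunc ℚ) D

open V11307.Q V11307.WZ

/-- undeformed factor -/
def ww (g : RatFunc ℚ) (k : ℕ) : RatFunc ℚ :=
  (-1) ^ k * (1 - g ^ (4 * k + 1)) * g ^ k *
      ∏ u ∈ range k, ((1 - g ^ (2 * u + 1)) ^ 2 * (1 - g ^ (4 * u + 2)) /
        ((1 - g ^ (2 * u + 2)) ^ 2 * (1 - g ^ (4 * u + 4))))

theorem c_eq (t : ℕ) : RatFunc.C (c t) =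
    (∏ u ∈ range t, (((2 * u + 1 : ℕ) : RatFunc ℚ) / ((2 * u + 2 : ℕ) : RatFunc ℚ))) ^ 5 := by
  have h1 : (1 / 4 ^ t * (Nat.choose (2 * t) t : ℚ)) =
      ∏ u ∈ range t, (((2 * u + 1 : ℕ) : ℚ) / ((2 * u + 2 : ℕ) : ℚ)) := by
    induction t with
    | zero => simp
    | succ t ih =>
      rw [prod_range_succ, ← ih]
      have h2 := Nat.succ_mul_centralBinom_succ t
      rw [Nat.centralBinom, Nat.centralBinom] at h2
      have h3 : ((t : ℚ) + 1) * (Nat.choose (2 * (t + 1)) (t + 1) : ℚ) =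
          2 * (2 * t + 1) * (Nat.choose (2 * t) t : ℚ) := by exact_mod_cast h2
      have h4 : ((t : ℚ) + 1) ≠ 0 := by positivity
      have h5 : (Nat.choose (2 * (t + 1)) (t + 1) : ℚ) =
          2 * (2 * t + 1) * (Nat.choose (2 * t) t : ℚ) / (t + 1) := by
        rw [eq_div_iff h4, ← h3]; ring
      rw [h5]
      push_cast
      field_simp
      ring
  rw [c, h1, map_pow, map_prod]
  congr 1
  refine prod_congr rfl fun u _ => ?_
  rw [map_div₀, map_natCast, map_natCast]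

theorem qint_eq (N : ℕ) : qint N = (1 - V11307.Q.q ^ N) / (1 - V11307.Q.q) := rfl

theorem S_eq (m n : ℕ) : S m n = (1 - V11307.Q.q)⁻¹ * ∑ k ∈ range (m * n), ww V11307.Q.q k *
    ∏ u ∈ range k, rho (fun i => 2 * i + 1) (fun i => 2 * i + 2) id 2 u := by
  rw [S, mul_sum]
  refine sum_congr rfl fun k _ => ?_
  have e5 : ∏ u ∈ range k, rho (fun i => 2 * i + 1) (fun i => 2 * i + 2) id 2 u =
      ∏ u ∈ range k, (1 - V11307.Q.q ^ (2 * u + 1)) ^ 2 / (1 - V11307.Q.q ^ (2 * u + 2)) ^ 2 := by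
    refine prod_congr rfl fun u _ => ?_
    simp only [rho, f_two, id]
  have e6 : a k = (∏ u ∈ range k, ((1 - V11307.Q.q ^ (2 * u + 1)) ^ 2 * (1 - V11307.Q.q ^ (4 * u + 2)) /
        ((1 - V11307.Q.q ^ (2 * u + 2)) ^ 2 * (1 - V11307.Q.q ^ (4 * u + 4))))) *
      ∏ u ∈ range k, (1 - V11307.Q.q ^ (2 * u + 1)) ^ 2 / (1 - V11307.Q.q ^ (2 * u + 2)) ^ 2 := by
    rw [a, ← prod_mul_distrib]
    refine prod_congr rfl fun u _ => ?_
    rw [div_mul_div_comm]
    congr 1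
    · simp only [q]; ring
    · simp only [q]; ring
  rw [e5, e6, ww, qint_eq]
  simp only [div_eq_mul_inv]
  have : (q : RatFunc ℚ) = V11307.Q.q := rfl
  rw [this]
  ring

theorem ww_mem {M n : ℕ} (hM : 0 < M) (hn : n = 2 * M + 1) (k : ℕ) : ww V11307.Q.q k ∈ R n ∧
    ww V11307.Q.q k = (-1) ^ k * (1 - V11307.Q.q ^ (4 * k + 1)) * V11307.Q.q ^ k *
      ((∏ u ∈ range k, (1 - V11307.Q.q ^ (2 * u + 1)) / (1 - V11307.Q.q ^ (2 * u + 2))) ^ 2 *
      ∏ u ∈ range k, (1 - V11307.Q.q ^ (4 * u + 2)) / (1 - V11307.Q.q ^ (4 * u + 4))) := by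
  have H := hyp21 M hM (d := id) (Or.inl fun _ => rfl)
  have H' := hyp42 M hM (d := id) (Or.inl fun _ => rfl)
  rw [← hn] at H H'
  have e1 : ww V11307.Q.q k = (-1) ^ k * (1 - V11307.Q.q ^ (4 * k + 1)) * V11307.Q.q ^ k *
      ((∏ u ∈ range k, (1 - V11307.Q.q ^ (2 * u + 1)) / (1 - V11307.Q.q ^ (2 * u + 2))) ^ 2 *
      ∏ u ∈ range k, (1 - V11307.Q.q ^ (4 * u + 2)) / (1 - V11307.Q.q ^ (4 * u + 4))) := by
    rw [ww, ← prod_pow, ← prod_mul_distrib]
    congr 1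
    refine prod_congr rfl fun u _ => ?_
    rw [div_pow, div_mul_div_comm]
  refine ⟨?_, e1⟩
  rw [e1]
  exact mul_mem (mul_mem (mul_mem (pow_mem (neg_mem (one_mem _)) _)
    (sub_mem (one_mem _) (pow_mem q_mem _))) (pow_mem q_mem _))
    (mul_mem (pow_mem (H.single k) _) (H'.single k))

/-- Main congruence in local form, `n > 1`. -/
theorem main_I (m κ : ℕ) (hκ : 0 < κ) : I (4 * κ + 1) 3 (S m (4 * κ + 1) - T m (4 * κ + 1)) := by
  set n := 4 * κ + 1 with hn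
  have hn0 : 0 < n := by omega
  have hnM : n = 2 * (2 * κ) + 1 := by omega
  have H := hyp21 (2 * κ) (by omega) (d := id) (Or.inl fun _ => rfl)
  have H' := hyp42 (2 * κ) (by omega) (d := id) (Or.inl fun _ => rfl)
  rw [← hnM] at H H'
  have hm : ∀ e, 1 - V11307.Q.q ^ e ∈ R n := fun e => sub_mem (one_mem _) (pow_mem q_mem _)
  have hC : (∏ i ∈ range κ, rr V11307.Q.q i) ^ 2 ∈ R n := pow_mem (rr_mem hn) _
  have main := H.main3 (fun k => ww V11307.Q.q k) (fun k => (ww_mem (by omega) hnM k).1) (by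
      intro l i hi hin
      rw [(ww_mem (by omega) hnM _).2]
      exact I.R_mul (mul_mem (mul_mem (pow_mem (neg_mem (one_mem _)) _) (hm _)) (pow_mem q_mem _))
        (I.R_mul (pow_mem (H.single _) _) (H'.single_tail l hi hin))) (by
      intro l s hs
      have e1 : ∀ t : RatFunc ℚ, ∑ i ∈ range (2 * κ + 1), ww V11307.Q.q (l * n + i) *
          ∏ u ∈ range i, rho (fun i => 2 * i + 1) (fun i => 2 * i + 2) id t (l * n + u) =
          ((-1) ^ (l * n) * V11307.Q.q ^ (l * n) *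
            ∏ u ∈ range (l * n), ((1 - V11307.Q.q ^ (2 * u + 1)) ^ 2 * (1 - V11307.Q.q ^ (4 * u + 2)) /
        ((1 - V11307.Q.q ^ (2 * u + 2)) ^ 2 * (1 - V11307.Q.q ^ (4 * u + 4))))) *
          ∑ i ∈ range (2 * κ + 1), ((-1) ^ i * (1 - V11307.Q.q ^ (4 * (l * n + i) + 1)) * V11307.Q.q ^ i *
            ∏ u ∈ range i, rZ t (l * n + u)) := by
        intro t
        rw [mul_sum]
        refine sum_congr rfl fun i _ => ?_
        rw [ww, prod_range_add, pow_add (-1 : RatFunc ℚ), pow_add V11307.Q.q (l * n) i]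
        have e2 : ∏ u ∈ range i, rZ t (l * n + u) =
            (∏ u ∈ range i, ((1 - V11307.Q.q ^ (2 * (l * n + u) + 1)) ^ 2 *
              (1 - V11307.Q.q ^ (4 * (l * n + u) + 2)) / ((1 - V11307.Q.q ^ (2 * (l * n + u) + 2)) ^ 2 *
                (1 - V11307.Q.q ^ (4 * (l * n + u) + 4))))) *
            ∏ u ∈ range i, rho (fun i => 2 * i + 1) (fun i => 2 * i + 2) id t (l * n + u) := by
          rw [← prod_mul_distrib]
          refine prod_congr rfl fun u _ => ?_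
          simp only [rho, id, rZ, Zf]
          rw [div_mul_div_comm]
          congr 3
          · congr 2; ring
          · congr 2; ring
        rw [e2]
        ring
      rw [e1, e1]
      have hP : (-1) ^ (l * n) * V11307.Q.q ^ (l * n) *
            ∏ u ∈ range (l * n), ((1 - V11307.Q.q ^ (2 * u + 1)) ^ 2 * (1 - V11307.Q.q ^ (4 * u + 2)) /
        ((1 - V11307.Q.q ^ (2 * u + 2)) ^ 2 * (1 - V11307.Q.q ^ (4 * u + 4)))) ∈ R n := by
        refine mul_mem (mul_mem (pow_mem (neg_mem (one_mem _)) _) (pow_mem q_mem _)) ?_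
        have e3 : ∏ u ∈ range (l * n), ((1 - V11307.Q.q ^ (2 * u + 1)) ^ 2 * (1 - V11307.Q.q ^ (4 * u + 2)) /
        ((1 - V11307.Q.q ^ (2 * u + 2)) ^ 2 * (1 - V11307.Q.q ^ (4 * u + 4)))) =
          (∏ u ∈ range (l * n), (1 - V11307.Q.q ^ (2 * u + 1)) / (1 - V11307.Q.q ^ (2 * u + 2))) ^ 2 *
      ∏ u ∈ range (l * n), (1 - V11307.Q.q ^ (4 * u + 2)) / (1 - V11307.Q.q ^ (4 * u + 4)) := by
          rw [← prod_pow, ← prod_mul_distrib]
          refine prod_congr rfl fun u _ => ?_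
          rw [div_pow, div_mul_div_comm]
        rw [e3]
        exact mul_mem (pow_mem (H.single _) _) (H'.single _)
      have h2 := sg_sum hnM hs
      have hz : I n 2 ((2 : RatFunc ℚ) - 2) := by rw [sub_self]; exact I.zero
      have h3 : J n 1 (∑ i ∈ range (2 * κ + 1), (((-1) ^ i * (1 - V11307.Q.q ^ (4 * (l * n + i) + 1)) *
            V11307.Q.q ^ i * ∏ u ∈ range i, rZ s (l * n + u)) - sg s i))
          (∑ i ∈ range (2 * κ + 1), (((-1) ^ i * (1 - V11307.Q.q ^ (4 * (l * n + i) + 1)) *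
            V11307.Q.q ^ i * ∏ u ∈ range i, rZ 2 (l * n + u)) - sg 2 i)) := by
        refine J.sum fun i hi => ?_
        have hi := mem_range.1 hi
        have hU : ∀ e, 0 < e → e < n → ∀ j, JU n (Zf s (j * n + e)) (Zf 2 (j * n + e)) := by
          intro e h1 h2 j
          have h := nd_odd (M := 2 * κ) (e := e) h1 (by omega)
          rw [← hnM] at h
          refine JU_Z hs hn0 ?_ ?_
          · rw [Nat.dvd_add_right (dvd_mul_left _ _)]; exact h.1
          · rw [mul_add, Nat.dvd_add_right (dvd_mul_of_dvd_right (dvd_mul_left _ _) _)]; exact h.2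
        have hr : ∀ u ∈ range i, JC n (rZ s (l * n + u)) (rZ 2 (l * n + u)) (rZ s u) (rZ 2 u) ∧
            JU n (rZ s (l * n + u)) (rZ 2 (l * n + u)) := by
          intro u hu
          have hu := mem_range.1 hu
          have q1 : 2 * (l * n + u) + 1 = (2 * l) * n + (2 * u + 1) := by ring
          have q2 : 2 * (l * n + u) + 2 = (2 * l) * n + (2 * u + 2) := by ring
          have k1 : ∀ j e, j * n + e ≡ e [MOD n] := by
            intro j e
            have := (Nat.modEq_zero_iff_dvd).2 (dvd_mul_left n j)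
            simpa using this.add_right e
          have b1 := hU (2 * u + 1) (by omega) (by omega) (2 * l)
          have b2 := hU (2 * u + 2) (by omega) (by omega) (2 * l)
          have b3 := hU (2 * u + 2) (by omega) (by omega) 0
          rw [zero_mul, zero_add] at b3
          rw [rZ, rZ, rZ, rZ, q1, q2]
          exact ⟨JC.div (JC_Z hs hn0 (k1 _ _)) (JC_Z hs hn0 (k1 _ _)) (J0_Z hs _) b2 b3, b1.div b2⟩
        have h4 := JC.prod (fun u hu => (hr u hu).1) (fun u hu => (hr u hu).2.J0)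
          (fun u hu => (JU_rZ hnM hs (by have := mem_range.1 hu; omega)).J0)
        have h5 : I n 1 ((-1) ^ i * (1 - V11307.Q.q ^ (4 * (l * n + i) + 1)) * V11307.Q.q ^ i -
            (-1) ^ i * (1 - V11307.Q.q ^ (4 * i + 1)) * V11307.Q.q ^ i) := by
          have h6 : 4 * (l * n + i) + 1 ≡ 4 * i + 1 [MOD n] := by
            have := (Nat.modEq_zero_iff_dvd).2 (dvd_mul_left n (4 * l))
            have h7 := this.add_right (4 * i + 1)
            rw [zero_add] at h7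
            have h8 : 4 * (l * n + i) + 1 = 4 * l * n + (4 * i + 1) := by ring
            rw [h8]; exact h7
          have h7 := (qpow_congr hn0 h6).neg.mul_R (mul_mem (pow_mem (neg_mem (one_mem (R n))) i)
            (pow_mem (q_mem (n := n)) i))
          convert h7 using 1
          ring
        have h6 := JC.mul (JC.const h5) h4.1 (J0_R (mul_mem (mul_mem (pow_mem (neg_mem (one_mem _)) _)
          (hm _)) (pow_mem q_mem _))) h4.2.1
        exact h6
      have h4 := J.add h3 h2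
      rw [← sum_add_distrib, ← sum_add_distrib] at h4
      simp only [sub_add_cancel] at h4
      have h5 := J.mul (J0_R hP) h4
      exact h5)
    ((∏ i ∈ range κ, rr V11307.Q.q i) ^ 2) (fun t => ww (V11307.Q.q ^ n) t) (by
      intro l
      have hl : (2 * l + 1) * n = 2 * (l * n + 2 * κ) + 1 := by rw [hn]; ring
      have e1 : ∑ k ∈ range (l * n + 2 * κ + 1), ww V11307.Q.q k *
          ∏ u ∈ range k, rho (fun i => 2 * i + 1) (fun i => 2 * i + 2) id
            (sv ((2 * l + 1) * n)) u =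
          ∑ k ∈ range (l * n + 2 * κ + 1), t8 V11307.Q.q (l * n + 2 * κ) k := by
        rw [hl]
        exact sum_congr rfl fun k _ => cf8 q_ne _ k
      have e2 : ∑ t ∈ range (l + 1), ww (V11307.Q.q ^ n) t *
          ∏ u ∈ range t, EE' (fun i => 2 * i + 1) (fun i => 2 * i + 2) id n
            (sv ((2 * l + 1) * n)) u =
          ∑ k ∈ range (l + 1), t8 (V11307.Q.q ^ n) l k := by
        refine sum_congr rfl fun t _ => ?_
        rw [← cf8 (pow_ne_zero n q_ne), ww]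
        congr 1
        refine prod_congr rfl fun u _ => ?_
        simp only [EE', id]
        rw [f_eq_mul, f_eq_mul, sv_eq_mul]
      rw [e1, e2]
      rcases Nat.even_or_odd' l with ⟨v, hv | hv⟩
      · subst hv
        have h1 : 2 * v * n + 2 * κ = 2 * (v * n + κ) := by ring
        rw [h1, sum8_even q_ne q_ne_one', sum8_even (pow_ne_zero n q_ne) (q_pow_ne_one hn0)]
        obtain ⟨β, hβ1, hβ2, hβ3⟩ := block_rr_all hκ v
        rw [← hn] at hβ1 hβ2 hβ3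
        have e3 : ∏ i ∈ range (v * n + κ), (1 - V11307.Q.q ^ (4 * i + 2)) / (1 - V11307.Q.q ^ (4 * i + 4)) =
            (∏ i ∈ range κ, rr V11307.Q.q i) * ((∏ t ∈ range v, rr (V11307.Q.q ^ n) t) * β) := by
          rw [← hβ3, ← prod_range_add, add_comm]; rfl
        have e4 : ∏ i ∈ range v, (1 - (V11307.Q.q ^ n) ^ (4 * i + 2)) / (1 - (V11307.Q.q ^ n) ^ (4 * i + 4)) =
            ∏ t ∈ range v, rr (V11307.Q.q ^ n) t := rfl
        have e5 : V11307.Q.q ^ (4 * (v * n + κ) + 1) = (V11307.Q.q ^ n) ^ (4 * v + 1) := by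
          rw [← pow_mul]; congr 1; rw [hn]; ring
        rw [e3, e4, e5]
        have e6 : (1 - (V11307.Q.q ^ n) ^ (4 * v + 1)) * ((∏ i ∈ range κ, rr V11307.Q.q i) *
            ((∏ t ∈ range v, rr (V11307.Q.q ^ n) t) * β)) ^ 2 -
            (∏ i ∈ range κ, rr V11307.Q.q i) ^ 2 * ((1 - (V11307.Q.q ^ n) ^ (4 * v + 1)) *
              (∏ t ∈ range v, rr (V11307.Q.q ^ n) t) ^ 2) =
            ((1 - (V11307.Q.q ^ n) ^ (4 * v + 1)) * (β - 1)) * ((β + 1) *
              ((∏ i ∈ range κ, rr V11307.Q.q i) ^ 2 * (∏ t ∈ range v, rr (V11307.Q.q ^ n) t) ^ 2)) := by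
          ring
        rw [e6, ← pow_mul]
        exact ((I_one_sub_nat hn0 (dvd_mul_right n _)).mul hβ1).mul_R
          (mul_mem (add_mem hβ2 (one_mem _)) (mul_mem hC (pow_mem (prod_mem fun t _ => rr_pow_mem hn0 t) _)))
      · subst hv
        have h1 : (2 * v + 1) * n + 2 * κ = 2 * (v * n + 3 * κ) + 1 := by rw [hn]; ring
        rw [h1, sum8_odd q_ne q_ne_one', sum8_odd (pow_ne_zero n q_ne) (q_pow_ne_one hn0), mul_zero,
          sub_zero]
        exact I.zero) m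
  -- translate
  have hq1U : IsU n (1 - V11307.Q.q) := by
    have := one_sub_U hn0 (e := 1) (fun hd => by have := Nat.le_of_dvd one_pos hd; omega)
    rwa [pow_one] at this
  have main' := I.R_mul hq1U.2.2 main
  rw [mul_sub, ← S_eq] at main'
  -- second order
  have hc : I n 2 ((1 - V11307.Q.q ^ n)⁻¹ * ∑ t ∈ range m, ww (V11307.Q.q ^ n) t *
      ∏ u ∈ range t, EE' (fun i => 2 * i + 1) (fun i => 2 * i + 2) id n 2 u -
      RatFunc.C (∑ k ∈ range m, (-1) ^ k * (4 * (k : ℚ) + 1) * c k)) := by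
    rw [map_sum, mul_sum, ← sum_sub_distrib]
    apply I.sum
    intro t _
    have h2ne : (2 : RatFunc ℚ) ≠ 0 := two_ne_zero
    obtain ⟨hprod, hπmem, hϖmem⟩ := prod_ratio_two hn0 (fun u => 2 * u + 1) (fun u => 2 * u + 2)
      (fun u => by omega) t (z := -(2 : RatFunc ℚ)⁻¹) (by
        intro u
        push_cast
        ring)
    obtain ⟨hprod', hπmem', hϖmem'⟩ := prod_ratio_two hn0 (fun u => 4 * u + 2) (fun u => 4 * u + 4)
      (fun u => by omega) t (z := -1) (by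
        intro u
        push_cast
        field_simp
        ring)
    have hϖeq : ∏ u ∈ range t, (((4 * u + 2 : ℕ) : RatFunc ℚ) / ((4 * u + 4 : ℕ) : RatFunc ℚ)) =
        ∏ u ∈ range t, (((2 * u + 1 : ℕ) : RatFunc ℚ) / ((2 * u + 2 : ℕ) : RatFunc ℚ)) := by
      refine prod_congr rfl fun u _ => ?_
      have h1 : ((4 * u + 2 : ℕ) : RatFunc ℚ) = 2 * ((2 * u + 1 : ℕ) : RatFunc ℚ) := by push_cast; ring
      have h3 : ((4 * u + 4 : ℕ) : RatFunc ℚ) = 2 * ((2 * u + 2 : ℕ) : RatFunc ℚ) := by push_cast; ring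
      rw [h1, h3, mul_div_mul_left _ _ h2ne]
    rw [hϖeq] at hprod' hϖmem'
    have hgeo := geom_cong_two hn0 (4 * t + 1)
    set π := ∏ u ∈ range t, (1 - V11307.Q.q ^ ((2 * u + 1) * n)) / (1 - V11307.Q.q ^ ((2 * u + 2) * n)) with hπ
    set π' := ∏ u ∈ range t, (1 - V11307.Q.q ^ ((4 * u + 2) * n)) / (1 - V11307.Q.q ^ ((4 * u + 4) * n)) with hπ'
    set ϖ := ∏ u ∈ range t, (((2 * u + 1 : ℕ) : RatFunc ℚ) / ((2 * u + 2 : ℕ) : RatFunc ℚ)) with hϖ
    set ε := eps n with hε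
    set gg := (1 - V11307.Q.q ^ ((4 * t + 1) * n)) / (1 - V11307.Q.q ^ n) with hgg
    have hεI := eps_I hn0
    have e1 : (1 - V11307.Q.q ^ n)⁻¹ * (ww (V11307.Q.q ^ n) t *
        ∏ u ∈ range t, EE' (fun i => 2 * i + 1) (fun i => 2 * i + 2) id n 2 u) =
        ((-1) ^ t * (1 + ε) ^ t) * (gg * (π' * (π * (π * (π * π))))) := by
      have e2 : ∏ u ∈ range t, EE' (fun i => 2 * i + 1) (fun i => 2 * i + 2) id n 2 u = π * π := by
        rw [hπ, ← prod_mul_distrib]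
        refine prod_congr rfl fun u _ => ?_
        simp only [EE', f_two, id]
        rw [div_mul_div_comm, sq, sq]
      have e3 : ∏ u ∈ range t, ((1 - (V11307.Q.q ^ n) ^ (2 * u + 1)) ^ 2 * (1 - (V11307.Q.q ^ n) ^ (4 * u + 2)) /
        ((1 - (V11307.Q.q ^ n) ^ (2 * u + 2)) ^ 2 * (1 - (V11307.Q.q ^ n) ^ (4 * u + 4)))) =
          π' * (π * π) := by
        rw [hπ', hπ, ← prod_mul_distrib, ← prod_mul_distrib]
        refine prod_congr rfl fun u _ => ?_
        rw [← pow_mul, ← pow_mul, ← pow_mul, ← pow_mul, mul_comm n, mul_comm n, mul_comm n, mul_comm n]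
        simp only [div_eq_mul_inv, mul_inv, sq]
        ring
      have e4 : 1 + ε = V11307.Q.q ^ n := by rw [hε, eps]; ring
      rw [e2, ww, e3, e4, hgg, ← pow_mul V11307.Q.q n (4 * t + 1), mul_comm n (4 * t + 1)]
      simp only [div_eq_mul_inv]
      ring
    have e4 : RatFunc.C ((-1) ^ t * (4 * (t : ℚ) + 1) * c t) =
        (-1) ^ t * ((4 * t + 1 : ℕ) : RatFunc ℚ) * (ϖ * (ϖ * (ϖ * (ϖ * ϖ)))) := by
      rw [map_mul, c_eq, map_mul, map_pow, map_neg, map_one]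
      have : RatFunc.C (4 * (t : ℚ) + 1) = ((4 * t + 1 : ℕ) : RatFunc ℚ) := by
        rw [← map_natCast (RatFunc.C : ℚ →+* RatFunc ℚ)]
        congr 1; push_cast; ring
      rw [this, ← hϖ]
      ring
    rw [e1, e4]
    have hu1 : (1 + ε) ∈ R n := add_mem (one_mem _) hεI.mem
    have hmε : ∀ z ∈ R n, (1 + z * ε) ∈ R n := fun z hz => add_mem (one_mem _) (mul_mem hz hεI.mem)
    have hz1 : (-(2 : RatFunc ℚ)⁻¹) ∈ R n := neg_mem half_mem'
    have hz2 : (-1 : RatFunc ℚ) ∈ R n := neg_mem (one_mem _)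
    have m1 : ϖ * (1 + -(2 : RatFunc ℚ)⁻¹ * ε) ^ t ∈ R n := mul_mem hϖmem (pow_mem (hmε _ hz1) _)
    have m2 : ϖ * (1 + -1 * ε) ^ t ∈ R n := mul_mem hϖmem (pow_mem (hmε _ hz2) _)
    -- `[4t+1] ≡ (4t+1) (1+ε)^{2t}`
    have hN : ((4 * t + 1 : ℕ) : RatFunc ℚ) ∈ R n := natCast_mem _ _
    have hg2 : I n 2 (gg - ((4 * t + 1 : ℕ) : RatFunc ℚ) * ((1 + ε) ^ t * (1 + ε) ^ t)) := by
      have h5 := pow_first_order hεI t
      have h6 := I.mul_congr h5 h5 (add_mem (one_mem _) (mul_mem (natCast_mem _ _) hεI.mem))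
        (pow_mem hu1 t)
      have h7 := hgeo.sub (I.R_mul hN h6)
      have h8 := (hεI.mul hεI).mul_R (y := -(((4 * t + 1 : ℕ) : RatFunc ℚ) * (t * t)))
        (neg_mem (mul_mem hN (mul_mem (natCast_mem _ _) (natCast_mem _ _))))
      have h9 := h7.add h8
      convert h9 using 1
      push_cast
      field_simp
      ring
    have hgm : gg ∈ R n := (geom_U_nat hn0 (e := 4 * t + 1) (by omega)).2.1
    have hmP : ∀ z ∈ R n, z * π ∈ R n := fun z hz => mul_mem hz hπmem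
    have h3 := I.mul_congr hg2 (I.mul_congr hprod' (I.mul_congr hprod (I.mul_congr hprod
      (I.mul_congr hprod hprod m1 hπmem) m1 (mul_mem hπmem hπmem)) m1
        (mul_mem hπmem (mul_mem hπmem hπmem))) m2 (mul_mem hπmem (mul_mem hπmem (mul_mem hπmem hπmem))))
      (mul_mem hN (mul_mem (pow_mem hu1 _) (pow_mem hu1 _)))
      (mul_mem hπmem' (mul_mem hπmem (mul_mem hπmem (mul_mem hπmem hπmem))))
    have h4 := I.R_mul (mul_mem (pow_mem (neg_mem (one_mem (R n))) t) (pow_mem hu1 t)) h3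
    -- the unit is congruent to 1
    have hX : I n 2 (((1 + ε) * ((1 + ε) * (1 + ε))) * ((1 + -1 * ε) *
        ((1 + -(2 : RatFunc ℚ)⁻¹ * ε) * ((1 + -(2 : RatFunc ℚ)⁻¹ * ε) * ((1 + -(2 : RatFunc ℚ)⁻¹ * ε) *
          (1 + -(2 : RatFunc ℚ)⁻¹ * ε))))) - 1) := by
      have hE : ∀ (z : RatFunc ℚ), z ∈ R n → I n 2 (ε * ε * z) := fun z hz => (hεI.mul hεI).mul_R hz
      have e9 : ((1 + ε) * ((1 + ε) * (1 + ε))) * ((1 + -1 * ε) *
        ((1 + -(2 : RatFunc ℚ)⁻¹ * ε) * ((1 + -(2 : RatFunc ℚ)⁻¹ * ε) * ((1 + -(2 : RatFunc ℚ)⁻¹ * ε) *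
          (1 + -(2 : RatFunc ℚ)⁻¹ * ε))))) - 1 = ε * ε *
          (((2 : RatFunc ℚ)⁻¹ * (2 : RatFunc ℚ)⁻¹ * ((2 : RatFunc ℚ)⁻¹ * (2 : RatFunc ℚ)⁻¹)) *
            (-40 + 8 * ε + 33 * (ε * ε) - 14 * (ε * ε * ε) - 8 * (ε * ε * (ε * ε)) +
              6 * (ε * ε * (ε * ε * ε)) - ε * ε * (ε * ε * (ε * ε)))) := by
        field_simp
        ring
      rw [e9]
      apply hE
      have hεm := hεI.mem
      have o : ∀ k : ℕ, [k.AtLeastTwo] → (OfNat.ofNat k : RatFunc ℚ) ∈ R n := fun k _ => ofNat_mem _ k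
      exact mul_mem (mul_mem (mul_mem half_mem' half_mem') (mul_mem half_mem' half_mem'))
        (sub_mem (add_mem (sub_mem (sub_mem (add_mem (add_mem (neg_mem (o 40)) (mul_mem (o 8) hεm))
          (mul_mem (o 33) (mul_mem hεm hεm))) (mul_mem (o 14) (mul_mem (mul_mem hεm hεm) hεm)))
          (mul_mem (o 8) (mul_mem (mul_mem hεm hεm) (mul_mem hεm hεm))))
          (mul_mem (o 6) (mul_mem (mul_mem hεm hεm) (mul_mem (mul_mem hεm hεm) hεm))))
          (mul_mem (mul_mem hεm hεm) (mul_mem (mul_mem hεm hεm) (mul_mem hεm hεm))))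
    have hXp : I n 2 ((((1 + ε) * ((1 + ε) * (1 + ε))) * ((1 + -1 * ε) *
        ((1 + -(2 : RatFunc ℚ)⁻¹ * ε) * ((1 + -(2 : RatFunc ℚ)⁻¹ * ε) * ((1 + -(2 : RatFunc ℚ)⁻¹ * ε) *
          (1 + -(2 : RatFunc ℚ)⁻¹ * ε)))))) ^ t - 1) := by
      have h7 := pow_first_order (hX.mono (l := 1) (by norm_num)) t
      have h8 := h7.add (I.R_mul (natCast_mem (R n) t) hX)
      rw [add_sub_cancel] at h8
      convert h8 using 1
      ring
    have h9 := hXp.mul_R (mul_mem (pow_mem (neg_mem (one_mem (R n))) t) (mul_mem hN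
      (mul_mem hϖmem (mul_mem hϖmem (mul_mem hϖmem (mul_mem hϖmem hϖmem))))))
    have h10 := h4.add h9
    convert h10 using 1
    simp only [mul_pow]
    ring
  have hlam : lam n = ((1 - V11307.Q.q)⁻¹ * (1 - V11307.Q.q ^ n)) * (∏ i ∈ range κ, rr V11307.Q.q i) ^ 2 := by
    rw [lam, qint_eq, show (n - 1) / 4 = κ by omega, ← prod_pow, div_eq_mul_inv, mul_comm (1 - _)]
    rfl
  have hlamI : I n 1 (lam n) := by
    rw [hlam]
    exact (I.R_mul hq1U.2.2 (I_one_sub_nat hn0 (dvd_refl n))).mul_R hC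
  have hfin := main'.add (hlamI.mul hc)
  convert hfin using 1
  rw [T, hlam]
  have h0 := one_sub_ne hn0
  field_simp
  ring

/-- termwise congruence for `n = 1` -/
theorem term_one (k : ℕ) : I 1 3 (qint (4 * k + 1) * a k * q ^ k - RatFunc.C ((4 * (k : ℚ) + 1) * c k)) ∧
    qint (4 * k + 1) * a k * q ^ k ∈ R 1 := by
  have hn0 : 0 < 1 := one_pos
  have hq : q = V11307.Q.q := rfl
  have hcm : ∀ x : ℚ, RatFunc.C x ∈ R 1 := fun x => by
    have h1 : RatFunc.C x = φ (Polynomial.C x) := (RatFunc.algebraMap_C _).symm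
    rw [h1]; exact φ_mem _
  induction k with
  | zero =>
    have h0 : (1 : RatFunc ℚ) - V11307.Q.q ≠ 0 := by
      have := one_sub_ne (k := 1) one_pos
      rwa [pow_one] at this
    have e1 : qint (4 * 0 + 1) * a 0 * q ^ 0 = 1 := by
      rw [qint_eq]; simp [a, h0]
    have e2 : c 0 = 1 := by simp [c]
    rw [e1, e2]
    refine ⟨?_, one_mem _⟩
    simp only [Nat.cast_zero, mul_zero, zero_add, mul_one, map_one, sub_self]
    exact I.zero
  | succ k ih =>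
    obtain ⟨ih1, ih2⟩ := ih
    have g := fun (e : ℕ) (he : e ≠ 0) => E3_geom (n := 1) hn0 (a := e) he
    have n1 := ((((g (4 * k + 5) (by omega)).mul hn0 ((g (2 * k + 1) (by omega)).mul hn0
      ((g (2 * k + 1) (by omega)).mul hn0 ((g (2 * k + 1) (by omega)).mul hn0
        (g (2 * k + 1) (by omega)))))).mul hn0 (g (4 * k + 2) (by omega))).mul hn0 (E3_q hn0))
    have d1 := (((g (4 * k + 1) (by omega)).mul hn0 ((g (2 * k + 2) (by omega)).mul hn0
      ((g (2 * k + 2) (by omega)).mul hn0 ((g (2 * k + 2) (by omega)).mul hn0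
        (g (2 * k + 2) (by omega)))))).mul hn0 (g (4 * k + 4) (by omega)))
    have h2ne : (2 : RatFunc ℚ) ≠ 0 := two_ne_zero
    have h6ne : (6 : RatFunc ℚ) ≠ 0 := by norm_num
    have h3 := n1.congr hn0 d1 (by
      push_cast
      field_simp
      ring) (by
      push_cast
      field_simp
      ring)
    set NN' := (1 - V11307.Q.q ^ ((4 * k + 5) * 1)) / (1 - V11307.Q.q ^ 1) / ((4 * k + 5 : ℕ) : RatFunc ℚ) *
      ((1 - V11307.Q.q ^ ((2 * k + 1) * 1)) / (1 - V11307.Q.q ^ 1) / ((2 * k + 1 : ℕ) : RatFunc ℚ) *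
      ((1 - V11307.Q.q ^ ((2 * k + 1) * 1)) / (1 - V11307.Q.q ^ 1) / ((2 * k + 1 : ℕ) : RatFunc ℚ) *
      ((1 - V11307.Q.q ^ ((2 * k + 1) * 1)) / (1 - V11307.Q.q ^ 1) / ((2 * k + 1 : ℕ) : RatFunc ℚ) *
      ((1 - V11307.Q.q ^ ((2 * k + 1) * 1)) / (1 - V11307.Q.q ^ 1) / ((2 * k + 1 : ℕ) : RatFunc ℚ))))) *
      ((1 - V11307.Q.q ^ ((4 * k + 2) * 1)) / (1 - V11307.Q.q ^ 1) / ((4 * k + 2 : ℕ) : RatFunc ℚ)) *
      V11307.Q.q ^ 1 with hNN
    set DD' := (1 - V11307.Q.q ^ ((4 * k + 1) * 1)) / (1 - V11307.Q.q ^ 1) / ((4 * k + 1 : ℕ) : RatFunc ℚ) *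
      ((1 - V11307.Q.q ^ ((2 * k + 2) * 1)) / (1 - V11307.Q.q ^ 1) / ((2 * k + 2 : ℕ) : RatFunc ℚ) *
      ((1 - V11307.Q.q ^ ((2 * k + 2) * 1)) / (1 - V11307.Q.q ^ 1) / ((2 * k + 2 : ℕ) : RatFunc ℚ) *
      ((1 - V11307.Q.q ^ ((2 * k + 2) * 1)) / (1 - V11307.Q.q ^ 1) / ((2 * k + 2 : ℕ) : RatFunc ℚ) *
      ((1 - V11307.Q.q ^ ((2 * k + 2) * 1)) / (1 - V11307.Q.q ^ 1) / ((2 * k + 2 : ℕ) : RatFunc ℚ))))) *
      ((1 - V11307.Q.q ^ ((4 * k + 4) * 1)) / (1 - V11307.Q.q ^ 1) / ((4 * k + 4 : ℕ) : RatFunc ℚ)) with hDD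
    have hmem : NN' / DD' ∈ R 1 := by
      have := add_mem h3.mem (one_mem _)
      rwa [sub_add_cancel] at this
    -- the rational constant
    set z : ℚ := ((4 * k + 5 : ℕ) : ℚ) * ((2 * k + 1 : ℕ) : ℚ) ^ 4 * ((4 * k + 2 : ℕ) : ℚ) /
      (((4 * k + 1 : ℕ) : ℚ) * ((2 * k + 2 : ℕ) : ℚ) ^ 4 * ((4 * k + 4 : ℕ) : ℚ)) with hz
    have hC : RatFunc.C ((4 * ((k + 1 : ℕ) : ℚ) + 1) * c (k + 1)) =
        RatFunc.C ((4 * (k : ℚ) + 1) * c k) * RatFunc.C z := by
      rw [← map_mul]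
      congr 1
      have h2 := Nat.succ_mul_centralBinom_succ k
      rw [Nat.centralBinom, Nat.centralBinom] at h2
      have h3 : ((k : ℚ) + 1) * (Nat.choose (2 * (k + 1)) (k + 1) : ℚ) =
          2 * (2 * k + 1) * (Nat.choose (2 * k) k : ℚ) := by exact_mod_cast h2
      have h4 : ((k : ℚ) + 1) ≠ 0 := by positivity
      have h5 : (Nat.choose (2 * (k + 1)) (k + 1) : ℚ) =
          2 * (2 * k + 1) * (Nat.choose (2 * k) k : ℚ) / (k + 1) := by
        rw [eq_div_iff h4, ← h3]; ring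
      rw [c, c, h5, hz]
      have h6 : (4 * (k : ℚ) + 1) ≠ 0 := by positivity
      push_cast
      field_simp
      ring
    have hT : qint (4 * (k + 1) + 1) * a (k + 1) * q ^ (k + 1) =
        (qint (4 * k + 1) * a k * q ^ k) * ((NN' / DD') * RatFunc.C z) := by
      have hz' : RatFunc.C z = ((4 * k + 5 : ℕ) : RatFunc ℚ) * ((2 * k + 1 : ℕ) : RatFunc ℚ) ^ 4 *
        ((4 * k + 2 : ℕ) : RatFunc ℚ) / (((4 * k + 1 : ℕ) : RatFunc ℚ) * ((2 * k + 2 : ℕ) : RatFunc ℚ) ^ 4 *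
          ((4 * k + 4 : ℕ) : RatFunc ℚ)) := by
        rw [hz]
        simp only [map_div₀, map_mul, map_pow, map_natCast]
      rw [hz', qint_eq, qint_eq, a, prod_range_succ, ← a, hNN, hDD, hq]
      have p : ∀ e : ℕ, e ≠ 0 → (e : RatFunc ℚ) ≠ 0 := fun e he => by exact_mod_cast he
      have p1 := p (4 * k + 5) (by omega)
      have p2 := p (2 * k + 1) (by omega)
      have p3 := p (4 * k + 2) (by omega)
      have p4 := p (4 * k + 1) (by omega)
      have p5 := p (2 * k + 2) (by omega)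
      have p6 := p (4 * k + 4) (by omega)
      have r1 := one_sub_ne (k := 4 * k + 1) (by omega)
      have r2 := one_sub_ne (k := 2 * k + 2) (by omega)
      have r3 := one_sub_ne (k := 4 * k + 4) (by omega)
      have r4 := one_sub_ne (k := 1) (by omega)
      rw [show 4 * (k + 1) + 1 = 4 * k + 5 by ring]
      simp only [mul_one, pow_one] at r4 ⊢
      generalize ((4 * k + 5 : ℕ) : RatFunc ℚ) = P1 at *
      generalize ((2 * k + 1 : ℕ) : RatFunc ℚ) = P2 at *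
      generalize ((4 * k + 2 : ℕ) : RatFunc ℚ) = P3 at *
      generalize ((4 * k + 1 : ℕ) : RatFunc ℚ) = P4 at *
      generalize ((2 * k + 2 : ℕ) : RatFunc ℚ) = P5 at *
      generalize ((4 * k + 4 : ℕ) : RatFunc ℚ) = P6 at *
      generalize 1 - V11307.Q.q ^ (4 * k + 1) = R1 at *
      generalize 1 - V11307.Q.q ^ (2 * k + 2) = R2 at *
      generalize 1 - V11307.Q.q ^ (4 * k + 4) = R3 at *
      generalize 1 - V11307.Q.q ^ (4 * k + 5) = R5 at *
      generalize 1 - V11307.Q.q ^ (2 * k + 1) = R6 at *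
      generalize 1 - V11307.Q.q ^ (4 * k + 2) = R7 at *
      generalize 1 - V11307.Q.q = R4 at *
      clear n1 d1 h3 hmem hNN hDD ih1 ih2 g hC hz' hz
      field_simp
      ring
    rw [hT, hC]
    have h4 := h3.mul_R (hcm z)
    rw [sub_mul, one_mul] at h4
    exact ⟨I.mul_congr ih1 h4 (hcm _) (mul_mem hmem (hcm _)), mul_mem ih2 (mul_mem hmem (hcm _))⟩

theorem main_one (m : ℕ) : I 1 3 (S m 1 - T m 1) := by
  have h0 : (1 : RatFunc ℚ) - V11307.Q.q ≠ 0 := by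
    have := one_sub_ne (k := 1) one_pos
    rwa [pow_one] at this
  have e1 : lam 1 = 1 := by
    rw [lam, qint_eq]; simp [h0]
  rw [S, T, e1, one_mul, mul_one, map_sum, ← sum_sub_distrib]
  apply I.sum
  intro k _
  have h1 := I.R_mul (pow_mem (neg_mem (one_mem (R 1))) k) (term_one k).1
  convert h1 using 1
  rw [mul_assoc ((-1 : ℚ) ^ k), map_mul, map_pow, map_neg, map_one]
  ring

/-- The congruence for all `m ≥ 1` and all `n ≥ 1` with `n ≡ 1 (mod 4)`. -/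
theorem result (m n : ℕ) (_hm : 1 ≤ m) (_hn : 1 ≤ n) (hn4 : n % 4 = 1) :
    CongCube n (S m n) (T m n) := by
  obtain ⟨κ, rfl⟩ : ∃ κ, n = 4 * κ + 1 := ⟨n / 4, by omega⟩
  rcases Nat.eq_zero_or_pos κ with rfl | hκ
  · obtain ⟨P, Q, hQ, ⟨A, rfl⟩, h⟩ := (main_one m).exists_frac
    exact ⟨A, Q, hQ, h⟩
  · obtain ⟨P, Q, hQ, ⟨A, rfl⟩, h⟩ := (main_I m κ hκ).exists_frac
    exact ⟨A, Q, hQ, h⟩

end

end Pool.Agent.Results.MP_40e425_nt.Fifth
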